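import Mathlib

/-!
# A computably maximal almost disjoint family inside a `Π⁰₁` class

We build a `Π⁰₁` class `P` of subsets of `ℕ` whose computable members are pairwise almost
disjoint, and such that every infinite computable set meets some computable member of `P`
in an infinite set.

The node `e` tries to build a subset `X_e` of the natural numbers with minimum `e`.  At stage
`t`, which codes a triple `(e, r, s)`, the node `e` claims the two numbers `r` and `t + 1` if
`r` is larger than everything claimed by `e` so far, the `e`-th program is seen to output `1`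
on `r` within `s` steps, and no node `k` which is at most `e` or at most some number claimed
by `e` has claimed `r` before.  The number `t + 1` witnesses that `r` was claimed at stage `t`.
-/

open Nat.Partrec (Code)
open Nat.Partrec.Code

namespace H313MD

/-- The node acting at stage `t`. -/
def eo (t : ℕ) : ℕ := t.unpair.1
/-- The number considered at stage `t`. -/
def ro (t : ℕ) : ℕ := t.unpair.2.unpair.1
/-- The number of steps of computation considered at stage `t`. -/
def so (t : ℕ) : ℕ := t.unpair.2.unpair.2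

lemma ro_le (t : ℕ) : ro t ≤ t :=
  le_trans (Nat.unpair_left_le _) (Nat.unpair_right_le _)

lemma eo_pair (e r s : ℕ) : eo (Nat.pair e (Nat.pair r s)) = e := by simp [eo]
lemma ro_pair (e r s : ℕ) : ro (Nat.pair e (Nat.pair r s)) = r := by simp [ro]
lemma so_pair (e r s : ℕ) : so (Nat.pair e (Nat.pair r s)) = s := by simp [so]

lemma le_pair (e r s : ℕ) : s ≤ Nat.pair e (Nat.pair r s) :=
  le_trans (Nat.right_le_pair _ _) (Nat.right_le_pair _ _)

/-- The condition for acting at stage `t`; `h` lists the earlier stages which acted. -/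
def Act (h : List ℕ) (t : ℕ) : Prop :=
  eo t < ro t ∧ (∀ s ∈ h, eo s = eo t → s + 1 < ro t) ∧
  evaln (so t) (Denumerable.ofNat Code (eo t)) (ro t) = some 1 ∧
  ∀ s ∈ h, (eo s ≤ eo t ∨ ∃ s' ∈ h, eo s' = eo t ∧ eo s ≤ s' + 1) →
    (ro s ≠ ro t ∧ s + 1 ≠ ro t)

instance (h : List ℕ) (t : ℕ) : Decidable (Act h t) := by
  unfold Act; infer_instance

/-- The list of acting stages below `t`. -/
def H : ℕ → List ℕ
  | 0 => []
  | t + 1 => if Act (H t) t then H t ++ [t] else H t

/-- Stage `t` acts. -/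
def A (t : ℕ) : Prop := Act (H t) t

lemma mem_H (t s : ℕ) : s ∈ H t ↔ s < t ∧ A s := by
  induction t with
  | zero => simp [H]
  | succ t ih =>
    unfold H
    split_ifs with h
    · rw [List.mem_append, ih, List.mem_singleton]
      constructor
      · rintro (h1 | rfl)
        · exact ⟨by omega, h1.2⟩
        · exact ⟨by omega, h⟩
      · rintro ⟨h1, h2⟩
        rcases Nat.lt_succ_iff_lt_or_eq.1 h1 with h3 | h3
        · exact Or.inl ⟨h3, h2⟩
        · exact Or.inr h3
    · rw [ih]
      constructor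
      · rintro h1
        exact ⟨by omega, h1.2⟩
      · rintro ⟨h1, h2⟩
        rcases Nat.lt_succ_iff_lt_or_eq.1 h1 with h3 | h3
        · exact ⟨h3, h2⟩
        · subst h3; exact absurd h2 h

lemma A_iff (t : ℕ) : A t ↔ eo t < ro t ∧ (∀ s, s < t → A s → eo s = eo t → s + 1 < ro t) ∧
    evaln (so t) (Denumerable.ofNat Code (eo t)) (ro t) = some 1 ∧
    ∀ s, s < t → A s → (eo s ≤ eo t ∨ ∃ s', s' < t ∧ A s' ∧ eo s' = eo t ∧ eo s ≤ s' + 1) →
      (ro s ≠ ro t ∧ s + 1 ≠ ro t) := by
  rw [A, Act]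
  simp only [mem_H, and_imp, and_assoc]

/-- `x` belongs to the `e`-th set by stage `t`. -/
def Mem (e t x : ℕ) : Prop := x = e ∨ ∃ s ∈ H t, eo s = e ∧ (x = ro s ∨ x = s + 1)

instance (e t x : ℕ) : Decidable (Mem e t x) := by
  unfold Mem; infer_instance

/-- `x` belongs to the `e`-th set. -/
def Xs (e x : ℕ) : Prop := x = e ∨ ∃ s, A s ∧ eo s = e ∧ (x = ro s ∨ x = s + 1)

lemma Mem.toXs {e t x : ℕ} (h : Mem e t x) : Xs e x := by
  rcases h with h | ⟨s, hs, h1, h2⟩
  · exact Or.inl h
  · exact Or.inr ⟨s, ((mem_H t s).1 hs).2, h1, h2⟩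

lemma Xs.toMem {e x : ℕ} (h : Xs e x) : ∃ t, ∀ t' ≥ t, Mem e t' x := by
  rcases h with h | ⟨s, hs, h1, h2⟩
  · exact ⟨0, fun _ _ => Or.inl h⟩
  · exact ⟨s + 1, fun t' ht' => Or.inr ⟨s, (mem_H t' s).2 ⟨by omega, hs⟩, h1, h2⟩⟩

lemma Xs_ge {e x : ℕ} (h : Xs e x) : e ≤ x := by
  rcases h with h | ⟨s, hs, h1, h2⟩
  · exact h ▸ le_rfl
  · have := ((A_iff s).1 hs).1
    have := ro_le s
    omega

/-- If `x < y` are in the `e`-th set then `x` is in it by stage `y`. -/
lemma Xs_lt {e x y : ℕ} (hx : Xs e x) (hy : Xs e y) (hxy : x < y) : Mem e y x := by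
  rcases hx with hx | ⟨s, hs, h1, h2⟩
  · exact Or.inl hx
  · refine Or.inr ⟨s, (mem_H y s).2 ⟨?_, hs⟩, h1, h2⟩
    by_contra hcon
    push Not at hcon
    rcases hy with hy | ⟨s', hs', h1', h2'⟩
    · have := ((A_iff s).1 hs).1
      have := ro_le s
      omega
    · have q1 := ro_le s
      have q2 := ro_le s'
      rcases lt_trichotomy s s' with h | h | h
      · have := ((A_iff s').1 hs').2.1 s h hs (by omega)
        omega
      · subst h; omega
      · have := ((A_iff s).1 hs).2.1 s' h hs' (by omega)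
        omega

/-- Stability: after a later action of node `e` at stage `t`, membership of numbers below
`t + 1` is decided. -/
lemma Xs_stable {e t x : ℕ} (ht : A t) (he : eo t = e) (hx : x < t + 1) (h : Xs e x) :
    Mem e (t + 1) x :=
  let h1 : Xs e (t + 1) := Or.inr ⟨t, ht, he, Or.inr rfl⟩
  Xs_lt h h1 hx

/-! ### Almost disjointness -/

/-- Stages at which the node `e` acts while it only respects nodes different from `k`. -/
lemma fin_stages (e k : ℕ) :
    {t | A t ∧ eo t = e ∧ ∀ s', s' < t → A s' → eo s' = e → s' + 1 < k}.Finite := by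
  by_contra hinf
  have hinf : {t | A t ∧ eo t = e ∧ ∀ s', s' < t → A s' → eo s' = e → s' + 1 < k}.Infinite := hinf
  obtain ⟨t1, ht1, h1⟩ := hinf.exists_gt k
  obtain ⟨t2, ht2, h2⟩ := hinf.exists_gt t1
  have := ht2.2.2 t1 h2 ht1.1 ht1.2.1
  omega

lemma key {e k x : ℕ} {s t : ℕ} (hs : A s) (hes : eo s = k) (hxs : x = ro s ∨ x = s + 1)
    (ht : A t) (het : eo t = e) (hxt : x = ro t ∨ x = t + 1) (hst : s < t) :
    x = ro t ∧ A t ∧ eo t = e ∧ ∀ s', s' < t → A s' → eo s' = e → s' + 1 < k := by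
  have q1 := ro_le s
  have hx : x = ro t := by
    rcases hxt with h | h
    · exact h
    · omega
  refine ⟨hx, ht, het, ?_⟩
  intro s' hs't hs' hes'
  by_contra hcon
  push Not at hcon
  have := ((A_iff t).1 ht).2.2.2 s hst hs (Or.inr ⟨s', hs't, hs', by omega, by omega⟩)
  omega

lemma Xs_ad {e k : ℕ} (hek : e ≠ k) : {x | Xs e x ∧ Xs k x}.Finite := by
  have hsub : {x | Xs e x ∧ Xs k x} ⊆ ({e, k} : Set ℕ) ∪
      (ro '' {t | A t ∧ eo t = e ∧ ∀ s', s' < t → A s' → eo s' = e → s' + 1 < k} ∪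
      ro '' {t | A t ∧ eo t = k ∧ ∀ s', s' < t → A s' → eo s' = k → s' + 1 < e}) := by
    rintro x ⟨h1, h2⟩
    rcases h1 with h1 | ⟨t, ht, het, hxt⟩
    · left; simp [h1]
    rcases h2 with h2 | ⟨s, hs, hes, hxs⟩
    · left; simp [h2]
    right
    rcases lt_trichotomy s t with h | h | h
    · left
      have := key hs hes hxs ht het hxt h
      exact ⟨t, this.2, this.1.symm⟩
    · subst h; omega
    · right
      have := key ht het hxt hs hes hxs h
      exact ⟨s, this.2, this.1.symm⟩
  refine Set.Finite.subset ?_ hsub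
  refine Set.Finite.union (by simp) (Set.Finite.union ?_ ?_)
  · exact (fin_stages e k).image _
  · exact (fin_stages k e).image _

/-! ### Computability -/

lemma eo_prim : Primrec eo := Primrec.fst.comp Primrec.unpair
lemma ro_prim : Primrec ro :=
  Primrec.fst.comp (Primrec.unpair.comp (Primrec.snd.comp Primrec.unpair))
lemma so_prim : Primrec so :=
  Primrec.snd.comp (Primrec.unpair.comp (Primrec.snd.comp Primrec.unpair))

lemma Act_prim : PrimrecRel Act := by
  unfold Act
  have c1 : PrimrecPred fun p : List ℕ × ℕ => eo p.2 < ro p.2 :=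
    Primrec.nat_lt.comp (eo_prim.comp Primrec.snd) (ro_prim.comp Primrec.snd)
  have c2 : PrimrecPred fun p : List ℕ × ℕ => ∀ s ∈ p.1, eo s = eo p.2 → s + 1 < ro p.2 := by
    have r : PrimrecRel fun (s : ℕ) (t : ℕ) => eo s = eo t → s + 1 < ro t := by
      have a1 : PrimrecPred fun q : ℕ × ℕ => ¬ (eo q.1 = eo q.2) :=
        (Primrec.eq.comp (eo_prim.comp Primrec.fst) (eo_prim.comp Primrec.snd)).not
      have a2 : PrimrecPred fun q : ℕ × ℕ => q.1 + 1 < ro q.2 :=
        Primrec.nat_lt.comp (Primrec.succ.comp Primrec.fst) (ro_prim.comp Primrec.snd)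
      refine (a1.or a2).of_eq fun q => ?_
      tauto
    exact r.forall_mem_list
  have c3 : PrimrecPred fun p : List ℕ × ℕ =>
      evaln (so p.2) (Denumerable.ofNat Code (eo p.2)) (ro p.2) = some 1 := by
    refine Primrec.eq.comp ?_ (Primrec.const (some 1))
    exact primrec_evaln.comp (((so_prim.comp Primrec.snd).pair
      ((Primrec.ofNat Code).comp (eo_prim.comp Primrec.snd))).pair (ro_prim.comp Primrec.snd))
  have c4 : PrimrecPred fun p : List ℕ × ℕ => ∀ s ∈ p.1,
      (eo s ≤ eo p.2 ∨ ∃ s' ∈ p.1, eo s' = eo p.2 ∧ eo s ≤ s' + 1) →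
        (ro s ≠ ro p.2 ∧ s + 1 ≠ ro p.2) := by
    have r : PrimrecRel fun (s : ℕ) (p : List ℕ × ℕ) =>
        (eo s ≤ eo p.2 ∨ ∃ s' ∈ p.1, eo s' = eo p.2 ∧ eo s ≤ s' + 1) →
        (ro s ≠ ro p.2 ∧ s + 1 ≠ ro p.2) := by
      have b0 : PrimrecPred fun q : ℕ × (List ℕ × ℕ) =>
          ∃ s' ∈ q.2.1, eo s' = eo q.2.2 ∧ eo q.1 ≤ s' + 1 := by
        have r' : PrimrecRel fun (s' : ℕ) (u : ℕ × (List ℕ × ℕ)) =>
            eo s' = eo u.2.2 ∧ eo u.1 ≤ s' + 1 := by
          have a1 : PrimrecPred fun v : ℕ × (ℕ × (List ℕ × ℕ)) => eo v.1 = eo v.2.2.2 :=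
            Primrec.eq.comp (eo_prim.comp Primrec.fst)
              (eo_prim.comp (Primrec.snd.comp (Primrec.snd.comp Primrec.snd)))
          have a2 : PrimrecPred fun v : ℕ × (ℕ × (List ℕ × ℕ)) => eo v.2.1 ≤ v.1 + 1 :=
            Primrec.nat_le.comp (eo_prim.comp (Primrec.fst.comp Primrec.snd))
              (Primrec.succ.comp Primrec.fst)
          exact a1.and a2
        exact r'.exists_mem_list.comp (Primrec.fst.comp Primrec.snd) Primrec.id
      have b1 : PrimrecPred fun q : ℕ × (List ℕ × ℕ) => eo q.1 ≤ eo q.2.2 :=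
        Primrec.nat_le.comp (eo_prim.comp Primrec.fst)
          (eo_prim.comp (Primrec.snd.comp Primrec.snd))
      have b2 : PrimrecPred fun q : ℕ × (List ℕ × ℕ) => ro q.1 = ro q.2.2 :=
        Primrec.eq.comp (ro_prim.comp Primrec.fst) (ro_prim.comp (Primrec.snd.comp Primrec.snd))
      have b3 : PrimrecPred fun q : ℕ × (List ℕ × ℕ) => q.1 + 1 = ro q.2.2 :=
        Primrec.eq.comp (Primrec.succ.comp Primrec.fst)
          (ro_prim.comp (Primrec.snd.comp Primrec.snd))
      refine (((b1.or b0).not).or (b2.not.and b3.not)).of_eq fun q => ?_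
      exact imp_iff_not_or.symm
    exact r.forall_mem_list.comp Primrec.fst Primrec.id
  exact c1.and (c2.and (c3.and c4))

lemma H_prim : Primrec H := by
  have h : Primrec₂ fun (t : ℕ) (l : List ℕ) => if Act l t then l ++ [t] else l := by
    refine Primrec.ite (Act_prim.comp Primrec.snd Primrec.fst) ?_ Primrec.snd
    exact Primrec.list_concat.comp Primrec.snd Primrec.fst
  refine (Primrec.nat_rec₁ [] h).of_eq fun n => ?_
  induction n with
  | zero => rfl
  | succ n ih => simp only [H]; rw [← ih]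

lemma Mem_prim : PrimrecPred fun p : (ℕ × ℕ) × ℕ => Mem p.1.1 p.1.2 p.2 := by
  unfold Mem
  have a0 : PrimrecPred fun p : (ℕ × ℕ) × ℕ => p.2 = p.1.1 :=
    Primrec.eq.comp Primrec.snd (Primrec.fst.comp Primrec.fst)
  have r : PrimrecRel fun (s : ℕ) (p : (ℕ × ℕ) × ℕ) =>
      eo s = p.1.1 ∧ (p.2 = ro s ∨ p.2 = s + 1) := by
    have b1 : PrimrecPred fun q : ℕ × ((ℕ × ℕ) × ℕ) => eo q.1 = q.2.1.1 :=
      Primrec.eq.comp (eo_prim.comp Primrec.fst)
        (Primrec.fst.comp (Primrec.fst.comp Primrec.snd))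
    have b2 : PrimrecPred fun q : ℕ × ((ℕ × ℕ) × ℕ) => q.2.2 = ro q.1 :=
      Primrec.eq.comp (Primrec.snd.comp Primrec.snd) (ro_prim.comp Primrec.fst)
    have b3 : PrimrecPred fun q : ℕ × ((ℕ × ℕ) × ℕ) => q.2.2 = q.1 + 1 :=
      Primrec.eq.comp (Primrec.snd.comp Primrec.snd) (Primrec.succ.comp Primrec.fst)
    exact b1.and (b2.or b3)
  exact a0.or (r.exists_mem_list.comp (H_prim.comp (Primrec.snd.comp Primrec.fst)) Primrec.id)

/-! ### The class -/

/-- A set of binary strings is a tree if it is closed under initial segments. -/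
def IsTree (T : Set (List Bool)) : Prop := ∀ σ τ : List Bool, σ <+: τ → τ ∈ T → σ ∈ T

/-- The `Π⁰₁` classes: sets of infinite paths through computable binary trees. -/
def IsPi01Class (P : Set (ℕ → Bool)) : Prop :=
  ∃ T : Set (List Bool), ComputablePred (fun σ => σ ∈ T) ∧ IsTree T ∧
    P = {X | ∀ n, (List.range n).map X ∈ T}

/-- The bit of a string at a given position. -/
def bit (σ : List Bool) (z : ℕ) : Prop := σ.getD z false = true

instance (σ : List Bool) (z : ℕ) : Decidable (bit σ z) := by unfold bit; infer_instance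

/-- The tree. -/
def T : Set (List Bool) :=
  {σ | ∀ e < σ.length, bit σ e → (∀ z < e, ¬ bit σ z) → ∀ y < σ.length, bit σ y →
    ∀ x < y, e ≤ x → bit σ x → Mem e y x ∧ ∀ z < x, Mem e y z → bit σ z}

lemma bit_of_prefix {σ τ : List Bool} (h : σ <+: τ) {z : ℕ} (hz : z < σ.length) :
    bit τ z ↔ bit σ z := by
  obtain ⟨ρ, rfl⟩ := h
  unfold bit
  rw [List.getD_append _ _ _ _ hz]

lemma T_tree : IsTree T := by
  intro σ τ hστ hτ e he hbe hmin y hy hby x hxy hex hbx
  have hl : σ.length ≤ τ.length := hστ.length_le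
  have h := hτ e (by omega) ((bit_of_prefix hστ he).2 hbe)
    (fun z hz hb => hmin z hz ((bit_of_prefix hστ (by omega)).1 hb)) y (by omega)
    ((bit_of_prefix hστ hy).2 hby) x hxy hex ((bit_of_prefix hστ (by omega)).2 hbx)
  exact ⟨h.1, fun z hz hm => (bit_of_prefix hστ (by omega)).1 (h.2 z hz hm)⟩

lemma bit_prim : PrimrecRel bit := by
  unfold bit
  exact Primrec.eq.comp ((Primrec.list_getD false).comp Primrec.fst Primrec.snd)
    (Primrec.const true)

lemma prForall {β : Type*} [Primcodable β] {R : ℕ → β → Prop} (hR : PrimrecRel R)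
    {f : β → ℕ} (hf : Primrec f) : PrimrecPred fun b => ∀ x < f b, R x b :=
  (hR.forall_mem_list.comp (Primrec.list_range.comp hf) Primrec.id).of_eq (by simp)

lemma primImp {β : Type*} [Primcodable β] {p q : β → Prop} (hp : PrimrecPred p)
    (hq : PrimrecPred q) : PrimrecPred fun b => p b → q b :=
  (hp.not.or hq).of_eq fun b => by tauto

/-- The innermost part of the definition of the tree. -/
lemma T_prim1 : PrimrecRel fun (z : ℕ) (p : ℕ × (ℕ × (ℕ × List Bool))) =>
    Mem p.2.2.1 p.2.1 z → bit p.2.2.2 z := by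
  refine primImp (β := ℕ × (ℕ × (ℕ × (ℕ × List Bool)))) ?_ ?_
  · exact Mem_prim.comp (((Primrec.fst.comp (Primrec.snd.comp (Primrec.snd.comp Primrec.snd))).pair
      (Primrec.fst.comp (Primrec.snd.comp Primrec.snd))).pair Primrec.fst)
  · exact bit_prim.comp (Primrec.snd.comp (Primrec.snd.comp (Primrec.snd.comp Primrec.snd)))
      Primrec.fst

lemma T_prim2 : PrimrecRel fun (x : ℕ) (p : ℕ × (ℕ × List Bool)) =>
    p.2.1 ≤ x → bit p.2.2 x → Mem p.2.1 p.1 x ∧ ∀ z < x, Mem p.2.1 p.1 z → bit p.2.2 z := by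
  refine primImp (β := ℕ × (ℕ × (ℕ × List Bool))) ?_ (primImp ?_ (PrimrecPred.and ?_ ?_))
  · exact Primrec.nat_le.comp (Primrec.fst.comp (Primrec.snd.comp Primrec.snd)) Primrec.fst
  · exact bit_prim.comp (Primrec.snd.comp (Primrec.snd.comp Primrec.snd)) Primrec.fst
  · exact Mem_prim.comp (((Primrec.fst.comp (Primrec.snd.comp Primrec.snd)).pair
      (Primrec.fst.comp Primrec.snd)).pair Primrec.fst)
  · exact prForall T_prim1 Primrec.fst

lemma T_prim3 : PrimrecRel fun (y : ℕ) (p : ℕ × List Bool) =>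
    bit p.2 y → ∀ x < y, p.1 ≤ x → bit p.2 x → Mem p.1 y x ∧ ∀ z < x, Mem p.1 y z → bit p.2 z := by
  refine primImp (β := ℕ × (ℕ × List Bool)) ?_ ?_
  · exact bit_prim.comp (Primrec.snd.comp Primrec.snd) Primrec.fst
  · exact prForall T_prim2 Primrec.fst

lemma T_prim4 : PrimrecRel fun (e : ℕ) (σ : List Bool) =>
    bit σ e → (∀ z < e, ¬ bit σ z) → ∀ y < σ.length, bit σ y →
    ∀ x < y, e ≤ x → bit σ x → Mem e y x ∧ ∀ z < x, Mem e y z → bit σ z := by
  refine primImp (β := ℕ × List Bool) ?_ (primImp ?_ ?_)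
  · exact bit_prim.comp Primrec.snd Primrec.fst
  · have : PrimrecRel fun (z : ℕ) (p : ℕ × List Bool) => ¬ bit p.2 z :=
      (bit_prim.comp (Primrec.snd.comp Primrec.snd) Primrec.fst).not
    exact prForall this Primrec.fst
  · exact prForall T_prim3 (Primrec.list_length.comp Primrec.snd)

lemma T_prim : PrimrecPred fun σ : List Bool => σ ∈ T := prForall T_prim4 Primrec.list_length

lemma T_computable : ComputablePred fun σ : List Bool => σ ∈ T := by
  obtain ⟨d, h⟩ := T_prim
  exact ⟨d, h.to_comp⟩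

/-- The class. -/
def P : Set (ℕ → Bool) := {X | ∀ n, (List.range n).map X ∈ T}

lemma bit_map (X : ℕ → Bool) (n z : ℕ) : bit ((List.range n).map X) z ↔ z < n ∧ X z = true := by
  unfold bit
  rw [List.getD_eq_getElem?_getD, List.getElem?_map]
  by_cases h : z < n
  · simp [h]
  · rw [List.getElem?_eq_none (by simpa using h)]
    simp [h]

/-- The condition defining `P`, on sets. -/
def Good (X : ℕ → Bool) : Prop :=
  ∀ e, X e = true → (∀ z < e, ¬ X z = true) → ∀ y, X y = true → ∀ x < y, e ≤ x → X x = true →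
    Mem e y x ∧ ∀ z < x, Mem e y z → X z = true

lemma mem_P (X : ℕ → Bool) : X ∈ P ↔ Good X := by
  constructor
  · intro h e he hmin y hy x hxy hex hx
    have h1 := h (max e y + 1) e (by simp) ((bit_map _ _ _).2 ⟨by omega, he⟩)
      (fun z hz hb => hmin z hz ((bit_map _ _ _).1 hb).2) y (by simp)
      ((bit_map _ _ _).2 ⟨by omega, hy⟩) x hxy hex ((bit_map _ _ _).2 ⟨by omega, hx⟩)
    exact ⟨h1.1, fun z hz hm => ((bit_map _ _ _).1 (h1.2 z hz hm)).2⟩
  · intro h n e he hbe hmin y hy hby x hxy hex hbx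
    simp only [List.length_map, List.length_range] at he hy
    rw [bit_map] at hbe hby hbx
    have h1 := h e hbe.2 (fun z hz hb => hmin z hz ((bit_map _ _ _).2 ⟨by omega, hb⟩)) y hby.2
      x hxy hex hbx.2
    exact ⟨h1.1, fun z hz hm => (bit_map _ _ _).2 ⟨by omega, h1.2 z hz hm⟩⟩

/-- The characteristic function of the `e`-th set. -/
noncomputable def chi (e : ℕ) : ℕ → Bool := by
  classical
  exact fun x => decide (Xs e x)

lemma chi_iff (e x : ℕ) : chi e x = true ↔ Xs e x := by
  unfold chi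
  simp

lemma chi_mem_P (e : ℕ) : chi e ∈ P := by
  rw [mem_P]
  intro e' he' hmin y hy x hxy hex hx
  rw [chi_iff] at he' hy hx
  have h1 : e' = e := by
    have h2 := Xs_ge he'
    by_contra hne
    exact hmin e (by omega) ((chi_iff _ _).2 (Or.inl rfl))
  subst h1
  exact ⟨Xs_lt hx hy hxy, fun z _ hm => (chi_iff _ _).2 hm.toXs⟩

/-- The infinite members of the class are of the form `chi e`. -/
lemma infinite_mem {X : ℕ → Bool} (hX : X ∈ P) (hinf : {n | X n = true}.Infinite) :
    ∃ e, X = chi e := by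
  classical
  rw [mem_P] at hX
  have hex : ∃ e, X e = true := hinf.nonempty
  refine ⟨Nat.find hex, ?_⟩
  set e := Nat.find hex with he
  have he1 : X e = true := Nat.find_spec hex
  have hmin : ∀ z < e, ¬ X z = true := fun z hz => Nat.find_min hex hz
  have hge : ∀ x, X x = true → e ≤ x := fun x hx => Nat.find_min' hex hx
  have main : ∀ x, X x = true ↔ Xs e x := by
    intro x
    constructor
    · intro hx
      obtain ⟨y, hy, hxy⟩ := hinf.exists_gt x
      exact (hX e he1 hmin y hy x hxy (hge x hx) hx).1.toXs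
    · intro hx
      obtain ⟨t, ht⟩ := hx.toMem
      obtain ⟨x', hx', hxx'⟩ := hinf.exists_gt (max x t)
      obtain ⟨y, hy, hxy⟩ := hinf.exists_gt x'
      exact (hX e he1 hmin y hy x' hxy (hge x' hx') hx').2 x (by omega) (ht y (by omega))
  funext x
  rw [Bool.eq_iff_iff, main, chi_iff]

/-- The infinite sets of the construction are computable. -/
lemma chi_computable {e : ℕ} (hinf : {t | A t ∧ eo t = e}.Infinite) : Computable (chi e) := by
  classical
  have hp : PrimrecRel fun (x t : ℕ) => t ∈ H (t + 1) ∧ eo t = e ∧ x < t + 1 := by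
    have a1 : PrimrecPred fun p : ℕ × ℕ => p.2 ∈ H (p.2 + 1) := by
      have r : PrimrecRel fun (s t : ℕ) => s = t := Primrec.eq
      refine ((r.exists_mem_list).comp (H_prim.comp (Primrec.succ.comp Primrec.snd))
        (Primrec.snd (α := ℕ) (β := ℕ))).of_eq fun p => ?_
      simp
    have a2 : PrimrecPred fun p : ℕ × ℕ => eo p.2 = e :=
      Primrec.eq.comp (eo_prim.comp Primrec.snd) (Primrec.const e)
    have a3 : PrimrecPred fun p : ℕ × ℕ => p.1 < p.2 + 1 :=
      Primrec.nat_lt.comp Primrec.fst (Primrec.succ.comp Primrec.snd)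
    exact a1.and (a2.and a3)
  have hpd : Primrec₂ fun (x t : ℕ) => decide (t ∈ H (t + 1) ∧ eo t = e ∧ x < t + 1) := hp.decide
  have hm : Primrec₂ fun (x t : ℕ) => decide (Mem e (t + 1) x) := by
    have : PrimrecPred fun p : ℕ × ℕ => Mem e (p.2 + 1) p.1 :=
      Mem_prim.comp (((Primrec.const e).pair (Primrec.succ.comp Primrec.snd)).pair Primrec.fst)
    exact this.decide
  have h1 : Partrec fun x : ℕ => (Nat.rfind fun t => Part.some
      (decide (t ∈ H (t + 1) ∧ eo t = e ∧ x < t + 1))) := by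
    exact Partrec.rfind (p := fun x t => Part.some
      (decide (t ∈ H (t + 1) ∧ eo t = e ∧ x < t + 1))) hpd.to_comp.partrec₂
  have h2 : Partrec fun x : ℕ => (Nat.rfind fun t => Part.some
      (decide (t ∈ H (t + 1) ∧ eo t = e ∧ x < t + 1))).map
        (fun t => decide (Mem e (t + 1) x)) := h1.map hm.to_comp
  refine h2.of_eq fun x => ?_
  obtain ⟨t0, ht0, hxt0⟩ := hinf.exists_gt x
  have hdom : (Nat.rfind fun t => Part.some
      (decide (t ∈ H (t + 1) ∧ eo t = e ∧ x < t + 1))).Dom := by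
    refine Nat.rfind_dom.2 ⟨t0, ?_, fun {m} _ => trivial⟩
    simp only [Part.mem_some_iff]
    rw [eq_comm, decide_eq_true_eq]
    exact ⟨(mem_H _ _).2 ⟨by omega, ht0.1⟩, ht0.2, by omega⟩
  obtain ⟨t, ht⟩ := Part.dom_iff_mem.1 hdom
  have hsp := Nat.rfind_spec ht
  simp only [Part.mem_some_iff] at hsp
  rw [eq_comm, decide_eq_true_eq] at hsp
  obtain ⟨q1, q2, q3⟩ := hsp
  have q1' : A t := ((mem_H _ _).1 q1).2
  change _ = Part.some (chi e x)
  rw [Part.eq_some_iff]
  refine (Part.mem_map_iff _).2 ⟨t, ht, ?_⟩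
  rw [Bool.eq_iff_iff, decide_eq_true_eq, chi_iff]
  exact ⟨fun h => h.toXs, fun h => Xs_stable q1' q2 q3 h⟩

lemma stages_infinite {e : ℕ} (h : {x | Xs e x}.Infinite) : {t | A t ∧ eo t = e}.Infinite := by
  intro hfin
  apply h
  refine Set.Finite.subset ((Set.finite_singleton e).union
    ((hfin.image ro).union (hfin.image (· + 1)))) ?_
  rintro x (hx | ⟨s, hs, h1, h2⟩)
  · left; exact hx
  · right
    rcases h2 with h2 | h2
    · left; exact ⟨s, ⟨hs, h1⟩, h2.symm⟩
    · right; exact ⟨s, ⟨hs, h1⟩, h2.symm⟩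

/-- Maximality. -/
lemma maximal (R : ℕ → Bool) (hR : Computable R) (hinf : {n | R n = true}.Infinite) :
    ∃ k, {n | chi k n = true ∧ R n = true}.Infinite := by
  have h1 : Nat.Partrec (fun n => Part.some (Encodable.encode (R n))) := by
    have : Computable fun n => Encodable.encode (R n) := Computable.encode.comp hR
    exact Partrec.nat_iff.1 this
  obtain ⟨c, hc⟩ := exists_code.1 h1
  set e := Encodable.encode c with he
  have hce : Denumerable.ofNat Code e = c := by rw [he]; exact Denumerable.ofNat_encode c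
  have hev : ∀ n, 1 ∈ eval c n ↔ R n = true := by
    intro n
    rw [hc, Part.mem_some_iff]
    cases R n <;> simp
  by_cases hfin : {t | A t ∧ eo t = e}.Finite
  · -- finitely many actions
    obtain ⟨B, hB⟩ := hfin.bddAbove
    by_contra hcon
    push Not at hcon
    apply hinf
    have hu : (⋃ k ∈ Set.Iic (max e (B + 1)), {n | chi k n = true ∧ R n = true}).Finite := by
      refine Set.Finite.biUnion (Set.finite_Iic _) fun k _ => ?_
      exact hcon k
    refine Set.Finite.subset ((Set.finite_Iic (max e (B + 1))).union hu) ?_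
    intro r hr
    by_cases hrB : r ≤ max e (B + 1)
    · left; exact hrB
    right
    obtain ⟨k0, hk0⟩ := evaln_complete.1 ((hev r).2 hr)
    set t := Nat.pair e (Nat.pair r (max k0 (B + 1))) with ht
    have ht1 : eo t = e := eo_pair _ _ _
    have ht2 : ro t = r := ro_pair _ _ _
    have ht3 : so t = max k0 (B + 1) := so_pair _ _ _
    have ht4 : B + 1 ≤ t := le_trans (le_max_right k0 _) (le_pair _ _ _)
    have hnA : ¬ A t := by
      intro hA
      have := hB (show t ∈ {t | A t ∧ eo t = e} from ⟨hA, ht1⟩)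
      omega
    have hev' : evaln (so t) (Denumerable.ofNat Code (eo t)) (ro t) = some 1 := by
      rw [ht1, ht2, ht3, hce]
      exact evaln_mono (le_max_left _ _) hk0
    have hown : ∀ s, A s → eo s = e → s ≤ B := fun s hs hes => hB ⟨hs, hes⟩
    rw [A_iff] at hnA
    have hfail : ∃ s, s < t ∧ A s ∧ (eo s ≤ eo t ∨ ∃ s', s' < t ∧ A s' ∧ eo s' = eo t ∧
        eo s ≤ s' + 1) ∧ (ro s = ro t ∨ s + 1 = ro t) := by
      by_contra hno
      apply hnA
      refine ⟨by omega, ?_, hev', ?_⟩
      · intro s _ hs hes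
        have := hown s hs (by omega)
        omega
      · intro s hst hs hcond
        constructor
        · intro h; exact hno ⟨s, hst, hs, hcond, Or.inl h⟩
        · intro h; exact hno ⟨s, hst, hs, hcond, Or.inr h⟩
    obtain ⟨s, hst, hs, hcond, hval⟩ := hfail
    have hk : eo s ≤ max e (B + 1) := by
      rcases hcond with h | ⟨s', _, hs', hes', h⟩
      · omega
      · have := hown s' hs' (by omega)
        omega
    refine Set.mem_biUnion (x := eo s) hk ?_
    refine ⟨(chi_iff _ _).2 (Or.inr ⟨s, hs, rfl, ?_⟩), hr⟩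
    rw [ht2] at hval
    rcases hval with h | h
    · left; exact h.symm
    · right; exact h.symm
  · -- infinitely many actions
    have hfin : {t | A t ∧ eo t = e}.Infinite := hfin
    refine ⟨e, ?_⟩
    refine Set.infinite_of_forall_exists_gt fun N => ?_
    obtain ⟨t1, ht1, h1⟩ := hfin.exists_gt N
    obtain ⟨t2, ht2, h2⟩ := hfin.exists_gt t1
    have hA := (A_iff t2).1 ht2.1
    have h3 := hA.2.1 t1 h2 ht1.1 (by rw [ht1.2, ht2.2])
    refine ⟨ro t2, ⟨(chi_iff _ _).2 (Or.inr ⟨t2, ht2.1, ht2.2, Or.inl rfl⟩), ?_⟩, by omega⟩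
    rw [← hev]
    have h4 := hA.2.2.1
    rw [ht2.2, hce] at h4
    exact evaln_sound h4

end H313MD

namespace Pool.Agent.Results.MP_054fd8_lc.ComputablyMadClass

open H313MD in
/-- There is a `Π⁰₁` class `P` (the set of paths through a computable binary tree) such that any
two distinct computable members of `P` are almost disjoint, and every infinite computable set
`R` has infinite intersection with some computable member of `P`. -/
theorem result : ∃ P : Set (ℕ → Bool), IsPi01Class P ∧
    (∀ X ∈ P, ∀ Y ∈ P, Computable X → Computable Y → X ≠ Y →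
      {n | X n = true ∧ Y n = true}.Finite) ∧
    (∀ R : ℕ → Bool, Computable R → {n | R n = true}.Infinite →
      ∃ X ∈ P, Computable X ∧ {n | X n = true ∧ R n = true}.Infinite) := by
  refine ⟨H313MD.P, ⟨T, T_computable, T_tree, rfl⟩, ?_, ?_⟩
  · intro X hX Y hY _ _ hXY
    by_cases h1 : {n | X n = true}.Finite
    · exact h1.subset fun n hn => hn.1
    by_cases h2 : {n | Y n = true}.Finite
    · exact h2.subset fun n hn => hn.2
    obtain ⟨e, rfl⟩ := infinite_mem hX h1
    obtain ⟨k, rfl⟩ := infinite_mem hY h2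
    have hek : e ≠ k := fun h => hXY (by rw [h])
    refine (Xs_ad hek).subset ?_
    rintro n ⟨h3, h4⟩
    exact ⟨(chi_iff _ _).1 h3, (chi_iff _ _).1 h4⟩
  · intro R hR hinf
    obtain ⟨k, hk⟩ := maximal R hR hinf
    refine ⟨chi k, chi_mem_P k, chi_computable (stages_infinite ?_), hk⟩
    refine hk.mono ?_
    rintro n ⟨h1, _⟩
    exact (chi_iff _ _).1 h1

end Pool.Agent.Results.MP_054fd8_lc.ComputablyMadClass
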